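import Pool.Agent.helper17.MLG.Spec

/-!
# MP_84f457_gt, project mlg, row mlg:CLC (clean-up lemma, outside)
-/

set_option autoImplicit false

namespace Pool.Agent.MLG

open MeasureTheory Set Filter Topology Module
open scoped ENNReal ContDiff

theorem CLC_meas {V : Type} [NormedAddCommGroup V] [InnerProductSpace ℝ V] [FiniteDimensional ℝ V]
    [MeasurableSpace V] [BorelSpace V] [Group V] (hV : IsLie V) (x : V) (r : ℝ) : MeasurableSet (bl x r) := by
  have := top hV
  unfold bl
  exact ((Homeomorph.mulLeft x).isOpenMap _ Metric.isOpen_ball).measurableSet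

theorem CLC_mono {V : Type} [NormedAddCommGroup V] [InnerProductSpace ℝ V] [FiniteDimensional ℝ V]
    [MeasurableSpace V] [BorelSpace V] [Group V] (x : V) {r r' : ℝ} (h : r ≤ r') : bl x r ⊆ bl x r' :=
  Set.image_mono (Metric.ball_subset_ball h)

theorem CLC (hCON : CON_stmt) (hISO : ISO_stmt) (hBLC : BLC_stmt) (hITR : ITR_stmt) (hVBL : VBL_stmt)
    (hPER : PER_stmt) : CLC_stmt := by
  intro V _ _ _ _ _ _ hV hn E v hv hE hvE hpE
  obtain ⟨-, hmono, hfin⟩ := hCON V hV hn
  obtain ⟨κ, C, rI, hκ, hC, hrI, hI⟩ := hISO V hV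
  obtain ⟨C', rB, hC', hrB, hB⟩ := hBLC V hV
  obtain ⟨κ₁, κ₂, rV, hκ₁, hκ₂, hrV, hVb⟩ := hVBL V hV
  obtain ⟨-, -, hcompl, -, -⟩ := hPER V hV
  obtain ⟨ε, r₁, hε, hr₁, hr₁r, hit⟩ := hITR (finrank ℝ V) κ C C' 0 (min rI (min rB rV)) hn hκ hC hC' le_rfl
    (lt_min hrI (lt_min hrB hrV))
  refine ⟨ε, r₁, hε, hr₁, fun x r hr hrr₁ hle => ?_⟩
  have hr₀I : min rI (min rB rV) ≤ rI := min_le_left _ _
  have hr₀B : min rI (min rB rV) ≤ rB := (min_le_right _ _).trans (min_le_left _ _)
  have hr₀V : min rI (min rB rV) ≤ rV := (min_le_right _ _).trans (min_le_right _ _)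
  have hfinbl : ∀ ρ : ℝ, 0 < ρ → ρ ≤ rV → vol V (bl x ρ) ≠ ⊤ := fun ρ h1 h2 =>
    ((hVb x ρ h1 h2).2.trans_lt ENNReal.ofReal_lt_top).ne
  have hfind : ∀ ρ : ℝ, 0 < ρ → ρ ≤ rV → vol V (bl x ρ \ E) ≠ ⊤ := fun ρ h1 h2 =>
    ((measure_mono Set.sdiff_subset).trans_lt (lt_top_iff_ne_top.2 (hfinbl ρ h1 h2))).ne
  have key := hit r (fun ρ => (vol V (bl x ρ \ E)).toReal) hr hrr₁ (fun ρ => ENNReal.toReal_nonneg) ?_ ?_
  · have hne := hfind (r / 2) (by linarith) (by linarith)
    rcases (ENNReal.toReal_eq_zero_iff _).1 key with h | h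
    · exact h
    · exact absurd h hne
  · intro ρ ρ' hρ hρρ' hρ'r
    have hρ'V : ρ' ≤ rV := by linarith
    obtain ⟨S, hSm, hS1, hS2, hS3⟩ := hB Eᶜ x ρ ρ' hE.compl hρ hρρ' (by linarith)
    have hSfin : vol V (S \ E) ≠ ⊤ :=
      ((measure_mono (Set.sdiff_subset_sdiff_left hS2)).trans_lt
        (lt_top_iff_ne_top.2 (hfind ρ' (by linarith) hρ'V))).ne
    refine ⟨(vol V (S \ E)).toReal, ?_, ?_, ?_⟩
    · exact ENNReal.toReal_mono hSfin (measure_mono (Set.sdiff_subset_sdiff_left hS1))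
    · exact ENNReal.toReal_mono (hfind ρ' (by linarith) hρ'V) (measure_mono (Set.sdiff_subset_sdiff_left hS2))
    · intro σ hσ hσr hsσ
      -- the perimeter of `Eᶜ ∩ S`
      have hset1 : Eᶜ ∩ S = S \ E := by
        ext y
        simp only [Set.mem_inter_iff, Set.mem_compl_iff, Set.mem_sdiff]
        tauto
      have hset2 : Eᶜ \ S = (E ∪ S)ᶜ := by
        ext y
        simp only [Set.mem_union, Set.mem_compl_iff, Set.mem_sdiff]
        tauto
      have hset3 : Eᶜ ∩ bl x ρ' = bl x ρ' \ E := by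
        ext y
        simp only [Set.mem_inter_iff, Set.mem_compl_iff, Set.mem_sdiff]
        tauto
      have hvolU : vol V (E ∪ S) = ENNReal.ofReal (v + (vol V (S \ E)).toReal) := by
        rw [← Set.union_sdiff_self, measure_union Set.disjoint_sdiff_right (hSm.diff hE), hvE,
          ENNReal.ofReal_add hv.le ENNReal.toReal_nonneg, ENNReal.ofReal_toReal hSfin]
      have hvpos : 0 < v + (vol V (S \ E)).toReal := by
        have : 0 ≤ (vol V (S \ E)).toReal := ENNReal.toReal_nonneg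
        linarith
      have hprof : prof V v ≤ prof V (v + (vol V (S \ E)).toReal) := by
        rw [hfin v hv, hfin _ hvpos]
        apply ENNReal.ofReal_le_ofReal
        apply hmono hv hvpos
        have : 0 ≤ (vol V (S \ E)).toReal := ENNReal.toReal_nonneg
        linarith
      have hperU : per Eᶜ ≤ per (Eᶜ \ S) := by
        rw [hset2, hcompl _ (hE.union hSm), hcompl _ hE, hpE]
        refine hprof.trans ?_
        unfold prof
        exact iInf_le_of_le (E ∪ S) (iInf_le_of_le (hE.union hSm) (iInf_le_of_le hvolU le_rfl))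
      have hperfin : per Eᶜ ≠ ⊤ := by
        rw [hcompl _ hE, hpE, hfin v hv]
        exact ENNReal.ofReal_ne_top
      have hperS : per (S \ E) ≤ ENNReal.ofReal (2 * C' / (ρ' - ρ)) * vol V (bl x ρ' \ E) := by
        rw [hset1, hset3] at hS3
        have h1 : per (S \ E) + per Eᶜ ≤ ENNReal.ofReal (2 * C' / (ρ' - ρ)) * vol V (bl x ρ' \ E) + per Eᶜ :=
          calc per (S \ E) + per Eᶜ ≤ per (S \ E) + per (Eᶜ \ S) := by gcongr
            _ ≤ per Eᶜ + ENNReal.ofReal (2 * C' / (ρ' - ρ)) * vol V (bl x ρ' \ E) := hS3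
            _ = _ := add_comm _ _
        exact (ENNReal.add_le_add_iff_right hperfin).1 h1
      have hA : vol V (S \ E) ≤ ENNReal.ofReal (κ * σ ^ finrank ℝ V) := by
        rw [← ENNReal.ofReal_toReal hSfin]
        exact ENNReal.ofReal_le_ofReal hsσ
      have h2 := hI (S \ E) (hSm.diff hE) σ hσ (by linarith) hA
      have h3 : vol V (S \ E) ≤ ENNReal.ofReal (C * σ * (0 * (vol V (S \ E)).toReal +
          2 * C' * (vol V (bl x ρ' \ E)).toReal / (ρ' - ρ))) := by
        refine h2.trans ?_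
        refine (mul_le_mul_right hperS _).trans ?_
        rw [← ENNReal.ofReal_toReal (hfind ρ' (by linarith) hρ'V), ← ENNReal.ofReal_mul, ← ENNReal.ofReal_mul]
        · apply ENNReal.ofReal_le_ofReal
          rw [ENNReal.toReal_ofReal ENNReal.toReal_nonneg]
          apply le_of_eq
          ring
        · positivity
        · have : 0 < ρ' - ρ := by linarith
          positivity
      apply ENNReal.toReal_le_of_le_ofReal _ h3
      have : 0 < ρ' - ρ := by linarith
      have h5 : 0 ≤ (vol V (bl x ρ' \ E)).toReal := ENNReal.toReal_nonneg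
      have h6 : 0 ≤ (vol V (S \ E)).toReal := ENNReal.toReal_nonneg
      positivity
  · exact ENNReal.toReal_le_of_le_ofReal (by positivity) hle

end Pool.Agent.MLG
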