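import Pool.Agent.helper17.MLG.Spec

/-!
# MP_84f457_gt, project mlg, row mlg:RTE (right translations of sets of finite perimeter)
-/

set_option autoImplicit false

namespace Pool.Agent.MLG

open MeasureTheory Set Filter Topology Module
open scoped ENNReal ContDiff

theorem RTE_ind {V : Type} (E : Set V) (x : V) : ind E x = 0 ∨ ind E x = 1 := by
  classical
  unfold ind
  rw [Set.indicator_apply]
  split_ifs
  · exact Or.inr rfl
  · exact Or.inl rfl

theorem RTE (hRTS : RTS_stmt) (hAPX : APX_stmt) (hTVS : TVS_stmt) (hRTM : RTM_stmt) (hPER : PER_stmt) : RTE_stmt := by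
  intro V _ _ _ _ _ _ hV
  have htop := top hV
  obtain ⟨C₁, r₁, hC₁, hr₁, h1⟩ := hRTS V hV
  obtain ⟨C₂, hC₂, h2⟩ := hRTM V hV
  refine ⟨C₁, min r₁ 1, hC₁, lt_min hr₁ one_pos, fun E hE g hg => ?_⟩
  have hg1 : ‖g - 1‖ ≤ r₁ := hg.trans (min_le_left _ _)
  have hg2 : ‖g - 1‖ ≤ 1 := hg.trans (min_le_right _ _)
  have hindm : Measurable (ind E) := measurable_const.indicator hE
  obtain ⟨w, hw, hL⟩ := hAPX V hV (ind E) ⟨hindm, fun x => by
      rcases RTE_ind E x with h | h
      · rw [h]
      · rw [h]; exact zero_le_one, fun x => by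
      rcases RTE_ind E x with h | h
      · rw [h]; exact zero_le_one
      · rw [h]⟩
  have hrc : Continuous (fun x : V => x * g) := continuous_id.mul continuous_const
  have hrm : Measurable (fun x : V => x * g) := hrc.measurable
  have hmA : MeasurableSet {x : V | x ∈ E ∧ x * g ∉ E} := hE.inter (hrm hE).compl
  have hmB : MeasurableSet {x : V | x ∉ E ∧ x * g ∈ E} := hE.compl.inter (hrm hE)
  have hdisj : Disjoint {x : V | x ∈ E ∧ x * g ∉ E} {x : V | x ∉ E ∧ x * g ∈ E} := by
    rw [Set.disjoint_left]
    rintro x ⟨h3, -⟩ ⟨h4, -⟩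
    exact h4 h3
  rw [← measure_union hdisj hmB]
  set D : Set V := {x : V | x ∈ E ∧ x * g ∉ E} ∪ {x : V | x ∉ E ∧ x * g ∈ E} with hD
  have hDm : MeasurableSet D := hmA.union hmB
  set c : ℝ≥0∞ := ENNReal.ofReal (C₁ * ‖g - 1‖) * per E with hc
  have hK : ∀ K : Set V, IsCompact K → vol V (D ∩ K) ≤ c := by
    intro K hKc
    have hKm : MeasurableSet K := hKc.measurableSet
    have hK'c : IsCompact ((fun x : V => x * g) '' K) := hKc.image hrc
    have hK'm : MeasurableSet ((fun x : V => x * g) '' K) := hK'c.measurableSet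
    have hb : ∀ k : ℕ, vol V (D ∩ K) ≤ (∫⁻ x in K, ENNReal.ofReal |w k x - ind E x| ∂(vol V)) + c +
        ENNReal.ofReal C₂ * ∫⁻ x in (fun x : V => x * g) '' K, ENNReal.ofReal |w k x - ind E x| ∂(vol V) := by
      intro k
      have hwm : Measurable (w k) := (hw k).1.continuous.measurable
      have hFm : Measurable (fun x => ENNReal.ofReal |w k x - ind E x|) :=
        (_root_.continuous_abs.measurable.comp (hwm.sub hindm)).ennreal_ofReal
      have hGm : Measurable (fun x => ENNReal.ofReal |w k (x * g) - w k x|) :=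
        (_root_.continuous_abs.measurable.comp ((hwm.comp hrm).sub hwm)).ennreal_ofReal
      have e1 : vol V (D ∩ K) = ∫⁻ x in K, D.indicator 1 x ∂(vol V) := by
        rw [lintegral_indicator_one hDm, Measure.restrict_apply hDm]
      have e2 : ∫⁻ x in K, D.indicator 1 x ∂(vol V) ≤ ∫⁻ x in K, (ENNReal.ofReal |w k x - ind E x| +
          ENNReal.ofReal |w k (x * g) - w k x| + ENNReal.ofReal |w k (x * g) - ind E (x * g)|) ∂(vol V) := by
        apply lintegral_mono
        intro x
        show D.indicator 1 x ≤ ENNReal.ofReal |w k x - ind E x| +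
          ENNReal.ofReal |w k (x * g) - w k x| + ENNReal.ofReal |w k (x * g) - ind E (x * g)|
        by_cases hx : x ∈ D
        · rw [Set.indicator_of_mem hx, ← ENNReal.ofReal_add (abs_nonneg _) (abs_nonneg _),
            ← ENNReal.ofReal_add (by positivity) (abs_nonneg _), Pi.one_apply, ← ENNReal.ofReal_one]
          apply ENNReal.ofReal_le_ofReal
          have h5 : |ind E (x * g) - ind E x| = 1 := by
            rcases hx with ⟨h3, h4⟩ | ⟨h3, h4⟩
            · rw [ind, Set.indicator_of_notMem h4, Set.indicator_of_mem h3]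
              norm_num
            · rw [ind, Set.indicator_of_mem h4, Set.indicator_of_notMem h3]
              norm_num
          rw [← h5]
          have h6 : ind E (x * g) - ind E x = (w k x - ind E x) + (w k (x * g) - w k x) +
              -(w k (x * g) - ind E (x * g)) := by ring
          rw [h6]
          refine (abs_add_le _ _).trans ?_
          rw [abs_neg]
          gcongr
          exact abs_add_le _ _
        · rw [Set.indicator_of_notMem hx]
          exact zero_le
      have e3 : ∫⁻ x in K, (ENNReal.ofReal |w k x - ind E x| +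
          ENNReal.ofReal |w k (x * g) - w k x| + ENNReal.ofReal |w k (x * g) - ind E (x * g)|) ∂(vol V) =
          (∫⁻ x in K, ENNReal.ofReal |w k x - ind E x| ∂(vol V)) +
          (∫⁻ x in K, ENNReal.ofReal |w k (x * g) - w k x| ∂(vol V)) +
          ∫⁻ x in K, ENNReal.ofReal |w k (x * g) - ind E (x * g)| ∂(vol V) := by
        rw [lintegral_add_left (f := fun x => ENNReal.ofReal |w k x - ind E x| +
          ENNReal.ofReal |w k (x * g) - w k x|) (hFm.add hGm), lintegral_add_left hFm]
      have e4 : ∫⁻ x in K, ENNReal.ofReal |w k (x * g) - w k x| ∂(vol V) ≤ c := by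
        refine (setLIntegral_le_lintegral _ _).trans ((h1 (w k) (hw k).1 g hg1).trans ?_)
        rw [← hTVS V hV (w k) (hw k).1, hc, (hPER V hV).1 E hE]
        exact mul_le_mul_right (hw k).2.2 _
      have e5 : ∫⁻ x in K, ENNReal.ofReal |w k (x * g) - ind E (x * g)| ∂(vol V) ≤
          ENNReal.ofReal C₂ * ∫⁻ x in (fun x : V => x * g) '' K, ENNReal.ofReal |w k x - ind E x| ∂(vol V) := by
        rw [← lintegral_indicator hKm, ← lintegral_indicator hK'm]
        refine le_trans ?_ (h2 _ (hFm.indicator hK'm) g hg2)
        apply lintegral_mono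
        intro x
        show K.indicator _ x ≤ ((fun x : V => x * g) '' K).indicator
          (fun x => ENNReal.ofReal |w k x - ind E x|) (x * g)
        by_cases hx : x ∈ K
        · rw [Set.indicator_of_mem hx, Set.indicator_of_mem (Set.mem_image_of_mem (fun x : V => x * g) hx)]
        · rw [Set.indicator_of_notMem hx]
          exact zero_le
      rw [e1]
      refine e2.trans ?_
      rw [e3]
      exact add_le_add (add_le_add le_rfl e4) e5
    have ht := ((hL K hKc).add (tendsto_const_nhds (x := c))).add
      (ENNReal.Tendsto.const_mul (hL _ hK'c) (Or.inr (ENNReal.ofReal_ne_top (r := C₂))))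
    have := ge_of_tendsto' ht hb
    simpa using this
  have hU : D = ⋃ n : ℕ, D ∩ Metric.closedBall (0 : V) n := by
    rw [← Set.inter_iUnion, Metric.iUnion_closedBall_nat, Set.inter_univ]
  have hmono : Monotone (fun n : ℕ => D ∩ Metric.closedBall (0 : V) n) := by
    intro a b hab
    exact Set.inter_subset_inter_right _ (Metric.closedBall_subset_closedBall (by exact_mod_cast hab))
  rw [hU, hmono.measure_iUnion]
  exact iSup_le fun n => hK _ (isCompact_closedBall _ _)

end Pool.Agent.MLG
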